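import Pool.Agent.H80.PK.FStmts

/-! # Board `pkt`, row KAP -/

set_option autoImplicit false

namespace Pool.PK

open MeasureTheory Filter Topology UniformSpace
open scoped Pointwise ENNReal

theorem KAP : KAPStmt := by
  intro G _ _ _ _ _ _ _ μ _ N A _ _ i ε h
  have hin : ∀ f : CG μ, InCc f.1 := fun f => f.2
  have h0 : i (0 : CG μ).1 = 0 := by
    have h1 := h.smul 0 (0 : CG μ).1 (hin 0)
    rw [zero_smul, zero_smul] at h1
    exact h1
  let i₀ : CG μ →ₙₐ[ℂ] A :=
    { toFun := fun f => i f.1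
      map_smul' := fun c f => h.smul c f.1 (hin f)
      map_zero' := h0
      map_add' := fun f g => h.add f.1 g.1 (hin f) (hin g)
      map_mul' := fun f g => h.mul f.1 g.1 (hin f) (hin g) }
  have hκ : ∀ x : Unitization ℂ (CG μ), Unitization.lift i₀ x = algebraMap ℂ A x.fst + i x.snd.1 :=
    fun x => rfl
  refine ⟨Unitization.lift i₀, hκ, ?_, ?_, ?_⟩
  · rw [DenseRange, Metric.dense_iff]
    intro a δ hδ
    obtain ⟨c, f, hf, hcf⟩ := h.dense a δ hδ
    refine ⟨algebraMap ℂ A c + i f, ?_, ?_⟩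
    · rw [Metric.mem_ball, dist_comm, dist_eq_norm]
      exact hcf
    · obtain ⟨g, hg⟩ : ∃ g : CG μ, g.1 = f := ⟨⟨f, hf⟩, rfl⟩
      refine ⟨Unitization.inl c + Unitization.inr g, ?_⟩
      rw [hκ]
      rw [Unitization.fst_add, Unitization.snd_add, Unitization.fst_inl, Unitization.snd_inl,
        Unitization.fst_inr, Unitization.snd_inr, add_zero, zero_add, hg]
  · intro x
    rw [hκ, h.norm _ _ (hin _)]
  · intro x
    rw [hκ, h.proj _ _ (hin _)]

end Pool.PK
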