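import Pool.Agent.H80.PK.GStmts

/-!
# Board `pkt`, row YNG: Young's inequality for continuous functions with compact support
-/

set_option autoImplicit false

namespace Pool.PK

open MeasureTheory Filter Topology UniformSpace
open scoped Pointwise ENNReal

namespace YNGAux

section

variable {G : Type} [Group G] [TopologicalSpace G] [IsTopologicalGroup G]
  [LocallyCompactSpace G] [T2Space G] [MeasurableSpace G] [BorelSpace G] (μ : Measure G)
  [μ.IsHaarMeasure]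

theorem lpn_eq (p : ℝ≥0∞) (h0 : p ≠ 0) (h1 : p ≠ ∞) (f : CG μ) :
    lpn μ p f = (∫ x, ‖f.1 x‖ ^ p.toReal ∂μ) ^ p.toReal⁻¹ := by
  have hf : MemLp (f.1 : G → ℂ) p μ := f.2.1.memLp_of_hasCompactSupport f.2.2
  rw [lpn, hf.eLpNorm_eq_integral_rpow_norm h0 h1]
  refine ENNReal.toReal_ofReal ?_
  refine Real.rpow_nonneg ?_ _
  exact integral_nonneg fun x => Real.rpow_nonneg (norm_nonneg _) _

theorem lpn_one (f : CG μ) : lpn μ 1 f = ∫ x, ‖f.1 x‖ ∂μ := by
  rw [lpn_eq μ 1 one_ne_zero ENNReal.one_ne_top]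
  simp

theorem int_mul (f : CG μ) {φ : G → ℝ} (hφ : Continuous φ) :
    Integrable (fun y => ‖f.1 y‖ * φ y) μ := by
  refine Continuous.integrable_of_hasCompactSupport (f.2.1.norm.mul hφ) ?_
  exact (f.2.2.norm).mul_right

theorem cont_b (g : CG μ) (x : G) : Continuous fun y => ‖g.1 (y⁻¹ * x)‖ :=
  (g.2.1.comp (continuous_inv.mul continuous_const)).norm

theorem norm_conv_le (f g : CG μ) (x : G) :
    ‖(f * g).1 x‖ ≤ ∫ y, ‖f.1 y‖ * ‖g.1 (y⁻¹ * x)‖ ∂μ := by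
  have h1 : ‖∫ y, f.1 y * g.1 (y⁻¹ * x) ∂μ‖ ≤ ∫ y, ‖f.1 y * g.1 (y⁻¹ * x)‖ ∂μ :=
    norm_integral_le_integral_norm _
  simp only [norm_mul] at h1
  exact h1

theorem le_sup (g : CG μ) (x : G) : ‖g.1 x‖ ≤ lpn μ ∞ g := by
  by_contra hcon
  push Not at hcon
  have hfin : eLpNorm (g.1 : G → ℂ) ∞ μ ≠ ∞ :=
    (g.2.1.memLp_of_hasCompactSupport g.2.2 : MemLp (g.1 : G → ℂ) ∞ μ).2.ne
  have hae : ∀ᵐ z ∂μ, ‖g.1 z‖ ≤ lpn μ ∞ g := by
    have h1 := enorm_ae_le_eLpNormEssSup (g.1 : G → ℂ) μ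
    filter_upwards [h1] with z hz
    rw [← eLpNorm_exponent_top] at hz
    have h2 := ENNReal.toReal_mono hfin hz
    rwa [toReal_enorm] at h2
  have hU : IsOpen {z : G | lpn μ ∞ g < ‖g.1 z‖} := isOpen_lt continuous_const g.2.1.norm
  have h3 : 0 < μ {z : G | lpn μ ∞ g < ‖g.1 z‖} := hU.measure_pos μ ⟨x, hcon⟩
  have h4 : μ {z : G | lpn μ ∞ g < ‖g.1 z‖} = 0 := by
    have h5 := ae_iff.1 hae
    refine measure_mono_null ?_ h5
    intro z hz
    exact not_le.2 hz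
  exact h3.ne' h4

theorem young_top (f g : CG μ) : lpn μ ∞ (f * g) ≤ lpn μ 1 f * lpn μ ∞ g := by
  have hC : 0 ≤ lpn μ ∞ g := ENNReal.toReal_nonneg
  have h1 : ∀ x, ‖(f * g).1 x‖ ≤ lpn μ 1 f * lpn μ ∞ g := by
    intro x
    refine (norm_conv_le μ f g x).trans ?_
    rw [lpn_one, ← integral_mul_const]
    refine integral_mono (int_mul μ f (cont_b μ g x)) (int_mul μ f continuous_const) ?_
    intro y
    exact mul_le_mul_of_nonneg_left (le_sup μ g _) (norm_nonneg _)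
  have h2 : eLpNorm ((f * g).1 : G → ℂ) ∞ μ ≤ ENNReal.ofReal (lpn μ 1 f * lpn μ ∞ g) := by
    rw [eLpNorm_exponent_top]
    exact eLpNormEssSup_le_of_ae_bound (Eventually.of_forall h1)
  exact ENNReal.toReal_le_of_le_ofReal (mul_nonneg ENNReal.toReal_nonneg hC) h2

/-- Hölder (Jensen) at one point -/
theorem pointwise (f g : CG μ) (x : G) {r : ℝ} (hr : 1 ≤ r) :
    (∫ y, ‖f.1 y‖ * ‖g.1 (y⁻¹ * x)‖ ∂μ) ^ r ≤
      (∫ y, ‖f.1 y‖ ∂μ) ^ (r - 1) * ∫ y, ‖f.1 y‖ * ‖g.1 (y⁻¹ * x)‖ ^ r ∂μ := by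
  have hr0 : r ≠ 0 := by linarith
  set A := ∫ y, ‖f.1 y‖ ∂μ with hA
  set B := ∫ y, ‖f.1 y‖ * ‖g.1 (y⁻¹ * x)‖ ∂μ with hB
  set D := ∫ y, ‖f.1 y‖ * ‖g.1 (y⁻¹ * x)‖ ^ r ∂μ with hD
  have hA0 : 0 ≤ A := integral_nonneg fun y => norm_nonneg _
  have hB0 : 0 ≤ B := integral_nonneg fun y => mul_nonneg (norm_nonneg _) (norm_nonneg _)
  have hD0 : 0 ≤ D := integral_nonneg fun y =>
    mul_nonneg (norm_nonneg _) (Real.rpow_nonneg (norm_nonneg _) _)
  have hR : 0 ≤ A ^ (r - 1) * D := mul_nonneg (Real.rpow_nonneg hA0 _) hD0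
  have hcb := cont_b μ g x
  have hI1 := int_mul μ f hcb
  have hI0 : Integrable (fun y => ‖f.1 y‖) μ := by
    have := int_mul μ f (continuous_const (y := (1 : ℝ)))
    simpa using this
  have hI2 := int_mul μ f (hcb.rpow_const (p := r) (fun _ => Or.inr (by linarith)))
  rcases hB0.eq_or_lt with hB1 | hB1
  · rw [← hB1, Real.zero_rpow hr0]
    exact hR
  · have hA1 : 0 < A := by
      rcases hA0.eq_or_lt with h | h
      · exfalso
        have h1 : B ≤ A * lpn μ ∞ g := by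
          rw [hA, ← integral_mul_const]
          refine integral_mono hI1 (int_mul μ f continuous_const) ?_
          intro y
          exact mul_le_mul_of_nonneg_left (le_sup μ g _) (norm_nonneg _)
        rw [← h, zero_mul] at h1
        linarith
      · exact h
    set t := B / A with ht
    have ht0 : 0 < t := div_pos hB1 hA1
    have htr : 0 < t ^ r := Real.rpow_pos_of_pos ht0 r
    have h1 : ∀ y, ‖f.1 y‖ * (t ^ r * (1 - r) + t ^ r * r / t * ‖g.1 (y⁻¹ * x)‖) ≤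
        ‖f.1 y‖ * ‖g.1 (y⁻¹ * x)‖ ^ r := by
      intro y
      refine mul_le_mul_of_nonneg_left ?_ (norm_nonneg _)
      set b := ‖g.1 (y⁻¹ * x)‖ with hb
      have hb0 : 0 ≤ b := norm_nonneg _
      have h2 : -1 ≤ b / t - 1 := by
        have := div_nonneg hb0 ht0.le
        linarith
      have h3 := one_add_mul_self_le_rpow_one_add h2 hr
      have h4 : 1 + (b / t - 1) = b / t := by ring
      rw [h4, Real.div_rpow hb0 ht0.le] at h3
      have h5 := mul_le_mul_of_nonneg_left h3 htr.le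
      have h6 : t ^ r * (b ^ r / t ^ r) = b ^ r := by field_simp
      rw [h6] at h5
      refine le_trans (le_of_eq ?_) h5
      ring
    have h2 : ∫ y, ‖f.1 y‖ * (t ^ r * (1 - r) + t ^ r * r / t * ‖g.1 (y⁻¹ * x)‖) ∂μ ≤ D :=
      integral_mono (int_mul μ f (continuous_const.add (continuous_const.mul hcb))) hI2 h1
    have h3 : ∫ y, ‖f.1 y‖ * (t ^ r * (1 - r) + t ^ r * r / t * ‖g.1 (y⁻¹ * x)‖) ∂μ =
        A * (t ^ r * (1 - r)) + B * (t ^ r * r / t) := by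
      rw [hA, hB, ← integral_mul_const, ← integral_mul_const, ← integral_add]
      · refine integral_congr_ae (Eventually.of_forall fun y => ?_)
        ring
      · exact hI0.mul_const _
      · exact hI1.mul_const _
    have h4 : A * (t ^ r * (1 - r)) + B * (t ^ r * r / t) = A * t ^ r := by
      have hBt : B = t * A := by rw [ht]; field_simp
      rw [hBt]
      field_simp
      ring
    rw [h3, h4] at h2
    have h5 : B ^ r = A ^ (r - 1) * (A * t ^ r) := by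
      have hBt : B = A * t := by rw [ht]; field_simp
      rw [hBt, Real.mul_rpow hA1.le ht0.le, ← mul_assoc]
      congr 1
      have h6 : A ^ (r - 1) * A = A ^ (r - 1) * A ^ (1 : ℝ) := by rw [Real.rpow_one]
      rw [h6, ← Real.rpow_add hA1]
      congr 1
      ring
    rw [h5]
    exact mul_le_mul_of_nonneg_left h2 (Real.rpow_nonneg hA0 _)

theorem young_fin (f g : CG μ) {r : ℝ} (hr : 1 ≤ r) :
    ∫ x, ‖(f * g).1 x‖ ^ r ∂μ ≤ (∫ y, ‖f.1 y‖ ∂μ) ^ r * ∫ x, ‖g.1 x‖ ^ r ∂μ := by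
  have hr0 : r ≠ 0 := by linarith
  set A := ∫ y, ‖f.1 y‖ ∂μ with hA
  have hA0 : 0 ≤ A := integral_nonneg fun y => norm_nonneg _
  have ca : Continuous fun y : G => ((‖f.1 y‖ : ℝ) : ℂ) := Complex.continuous_ofReal.comp f.2.1.norm
  have cb : Continuous fun y : G => ‖g.1 y‖ ^ r :=
    g.2.1.norm.rpow_const (fun _ => Or.inr (by linarith))
  have ma : (fun y : G => ((‖f.1 y‖ : ℝ) : ℂ)) ∈ Cc G :=
    ⟨ca, (f.2.2.norm).comp_left (g := fun t : ℝ => (t : ℂ)) Complex.ofReal_zero⟩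
  have mb : (fun y : G => ((‖g.1 y‖ ^ r : ℝ) : ℂ)) ∈ Cc G :=
    ⟨Complex.continuous_ofReal.comp cb, (g.2.2.norm).comp_left (g := fun t : ℝ => ((t ^ r : ℝ) : ℂ))
      (by rw [Real.zero_rpow hr0, Complex.ofReal_zero])⟩
  have mD := conv_mem μ ma mb
  have eD : ∀ x, conv μ (fun y : G => ((‖f.1 y‖ : ℝ) : ℂ)) (fun y : G => ((‖g.1 y‖ ^ r : ℝ) : ℂ)) x =
      ((∫ y, ‖f.1 y‖ * ‖g.1 (y⁻¹ * x)‖ ^ r ∂μ : ℝ) : ℂ) := by
    intro x
    rw [← integral_complex_ofReal]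
    refine integral_congr_ae (Eventually.of_forall fun y => ?_)
    push_cast
    rfl
  have cD : Continuous fun x => ∫ y, ‖f.1 y‖ * ‖g.1 (y⁻¹ * x)‖ ^ r ∂μ := by
    have h1 := Complex.continuous_re.comp mD.1
    have h2 : (Complex.re ∘ conv μ (fun y : G => ((‖f.1 y‖ : ℝ) : ℂ))
        (fun y : G => ((‖g.1 y‖ ^ r : ℝ) : ℂ))) =
        fun x => ∫ y, ‖f.1 y‖ * ‖g.1 (y⁻¹ * x)‖ ^ r ∂μ := by
      funext x
      rw [Function.comp_apply, eD, Complex.ofReal_re]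
    rwa [h2] at h1
  have sD : HasCompactSupport fun x => ∫ y, ‖f.1 y‖ * ‖g.1 (y⁻¹ * x)‖ ^ r ∂μ := by
    have h1 := mD.2.comp_left (g := Complex.re) Complex.zero_re
    have h2 : (Complex.re ∘ conv μ (fun y : G => ((‖f.1 y‖ : ℝ) : ℂ))
        (fun y : G => ((‖g.1 y‖ ^ r : ℝ) : ℂ))) =
        fun x => ∫ y, ‖f.1 y‖ * ‖g.1 (y⁻¹ * x)‖ ^ r ∂μ := by
      funext x
      rw [Function.comp_apply, eD, Complex.ofReal_re]
    rwa [h2] at h1
  have iD : Integrable (fun x => ∫ y, ‖f.1 y‖ * ‖g.1 (y⁻¹ * x)‖ ^ r ∂μ) μ :=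
    cD.integrable_of_hasCompactSupport sD
  have iF : Integrable (fun x => ‖(f * g).1 x‖ ^ r) μ := by
    refine Continuous.integrable_of_hasCompactSupport
      ((f * g).2.1.norm.rpow_const (fun _ => Or.inr (by linarith))) ?_
    exact ((f * g).2.2.norm).comp_left (g := fun t : ℝ => t ^ r) (Real.zero_rpow hr0)
  have h1 : ∫ x, ‖(f * g).1 x‖ ^ r ∂μ ≤
      ∫ x, A ^ (r - 1) * ∫ y, ‖f.1 y‖ * ‖g.1 (y⁻¹ * x)‖ ^ r ∂μ ∂μ := by
    refine integral_mono iF (iD.const_mul _) ?_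
    intro x
    refine le_trans ?_ (pointwise μ f g x hr)
    exact Real.rpow_le_rpow (norm_nonneg _) (norm_conv_le μ f g x) (by linarith)
  have h2 : ∫ x, ∫ y, ‖f.1 y‖ * ‖g.1 (y⁻¹ * x)‖ ^ r ∂μ ∂μ = A * ∫ x, ‖g.1 x‖ ^ r ∂μ := by
    rw [integral_integral_swap_of_hasCompactSupport
      (f := fun x y => ‖f.1 y‖ * ‖g.1 (y⁻¹ * x)‖ ^ r)]
    · rw [hA, ← integral_mul_const]
      refine integral_congr_ae (Eventually.of_forall fun y => ?_)
      change ∫ x, ‖f.1 y‖ * ‖g.1 (y⁻¹ * x)‖ ^ r ∂μ = ‖f.1 y‖ * ∫ x, ‖g.1 x‖ ^ r ∂μ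
      rw [integral_const_mul, integral_mul_left_eq_self (μ := μ) (fun x => ‖g.1 x‖ ^ r) y⁻¹]
    · exact (f.2.1.norm.comp continuous_snd).mul
        (cb.comp ((continuous_inv.comp continuous_snd).mul continuous_fst))
    · refine HasCompactSupport.intro (K := (tsupport f.1 * tsupport g.1) ×ˢ tsupport f.1)
        ((f.2.2.mul g.2.2).prod f.2.2) ?_
      rintro ⟨z, y⟩ hzy
      change ‖f.1 y‖ * ‖g.1 (y⁻¹ * z)‖ ^ r = 0
      by_contra hne
      have h1 : y ∈ tsupport f.1 := by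
        by_contra h
        exact hne (by rw [image_eq_zero_of_notMem_tsupport h, norm_zero, zero_mul])
      have h2 : y⁻¹ * z ∈ tsupport g.1 := by
        by_contra h
        exact hne (by rw [image_eq_zero_of_notMem_tsupport h, norm_zero, Real.zero_rpow hr0,
          mul_zero])
      exact hzy ⟨⟨y, h1, y⁻¹ * z, h2, by simp⟩, h1⟩
  rw [integral_const_mul, h2, ← mul_assoc] at h1
  refine h1.trans (le_of_eq ?_)
  congr 1
  rcases hA0.eq_or_lt with h | h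
  · rw [← h, mul_zero, Real.zero_rpow hr0]
  · have h6 : A ^ (r - 1) * A = A ^ (r - 1) * A ^ (1 : ℝ) := by rw [Real.rpow_one]
    rw [h6, ← Real.rpow_add h]
    congr 1
    ring

end

end YNGAux

open YNGAux in
theorem YNG : YNGStmt := by
  intro G _ _ _ _ _ _ _ μ _ p hp f g
  by_cases htop : p = ∞
  · subst htop
    exact young_top μ f g
  · have h0 : p ≠ 0 := by
      rintro rfl
      exact absurd hp (by simp)
    have hr : 1 ≤ p.toReal := by
      have := ENNReal.toReal_mono htop hp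
      simpa using this
    have hA0 : 0 ≤ ∫ y, ‖f.1 y‖ ∂μ := integral_nonneg fun y => norm_nonneg _
    have hB0 : 0 ≤ ∫ x, ‖g.1 x‖ ^ p.toReal ∂μ :=
      integral_nonneg fun x => Real.rpow_nonneg (norm_nonneg _) _
    rw [lpn_eq μ p h0 htop, lpn_eq μ p h0 htop, lpn_one]
    have h1 := Real.rpow_le_rpow (integral_nonneg fun x => Real.rpow_nonneg (norm_nonneg _) _)
      (young_fin μ f g hr) (z := p.toReal⁻¹) (by positivity)
    refine h1.trans (le_of_eq ?_)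
    rw [Real.mul_rpow (Real.rpow_nonneg hA0 _) hB0, Real.rpow_rpow_inv hA0 (by linarith)]

end Pool.PK
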